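import Pool.Agent.H27.CAL.Stmts2

/-!
# Project CAL, module MAIN: Tx is close to the multiples of x on rapidly increasing sequences
-/

open scoped BigOperators ENNReal Topology
open Filter

set_option linter.unusedSectionVars false

namespace CAL

section
variable {𝕜 : Type*} [RCLike 𝕜] {A : Type*} [PartialOrder A] {Y : Type*} [NormedAddCommGroup Y]
  [NormedSpace 𝕜 Y] {τ : TreeLev A}

theorem main_mono (D : Dat 𝕜 Y τ) {C C' : ℝ} {x : ℕ → D.X} {s t j : ℕ → ℕ}
    (h : D.IsRIS C x s t j) (hC : C ≤ C') : D.IsRIS C' x s t j where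
  ran := h.ran
  st := h.st
  ts := h.ts
  nm := fun k => (h.nm k).trans hC
  jt := h.jt
  jm := h.jm
  sm := fun k γ hγ => (h.sm k γ hγ).trans
    (mul_le_mul_of_nonneg_right hC (mm_inv_pos _).le)

/-- one third of a functional composed with 1 - PX k -/
noncomputable def main_f (D : Dat 𝕜 Y τ) (g : D.X →L[𝕜] 𝕜) (k : ℕ) : D.X →L[𝕜] 𝕜 :=
  (((3 : ℝ)⁻¹ : ℝ) : 𝕜) • (g - g.comp (D.PX k))

theorem main_f_apply (D : Dat 𝕜 Y τ) (g : D.X →L[𝕜] 𝕜) (k : ℕ) (x : D.X) :
    main_f D g k x = (((3 : ℝ)⁻¹ : ℝ) : 𝕜) * (g x - g (D.PX k x)) := rfl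

theorem main_f_norm (D : Dat 𝕜 Y τ) (g : D.X →L[𝕜] 𝕜) (k : ℕ) (hg : ‖g‖ ≤ 1) :
    ‖main_f D g k‖ ≤ 1 := by
  refine ContinuousLinearMap.opNorm_le_bound _ zero_le_one (fun x => ?_)
  rw [main_f_apply, norm_mul, RCLike.norm_ofReal, abs_of_pos (by norm_num), one_mul]
  have h1 : ‖g x‖ ≤ ‖x‖ := by
    refine (g.le_opNorm x).trans ?_
    have := norm_nonneg x
    nlinarith
  have h2 : ‖g (D.PX k x)‖ ≤ 2 * ‖x‖ := by
    refine (g.le_opNorm _).trans ?_
    have h3 := D.norm_PX_le k x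
    have := norm_nonneg (D.PX k x)
    nlinarith
  have h3 := norm_sub_le (g x) (g (D.PX k x))
  linarith

theorem cal_main (D : Dat 𝕜 Y τ) (hEX : EXACTStmt D) (hMB : MAINBStmt D)
    (hHB : HBStmt 𝕜 D.X) (hSUB : SUBStmt D) : MAINStmt D := by
  intro Ch F w R T x hx hP δ hδ
  by_contra hcon
  push Not at hcon
  obtain ⟨C, s, t, jj, hR⟩ := hx
  -- s tends to infinity
  have hs : ∀ k, k ≤ s k := by
    intro k
    induction k with
    | zero => exact Nat.zero_le _
    | succ k ih =>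
      have h1 := hR.st k
      have h2 := hR.ts k
      omega
  obtain ⟨φ, hφ, hφP⟩ := extraction_forall_of_frequently (P := fun i k =>
      (∀ c : 𝕜, δ < ‖T (x k) - c • x k‖) ∧ ‖D.PX i (T (x k))‖ ≤ δ / 2 ∧ i ≤ s k) (by
    intro i
    have h1 : ∃ᶠ k in atTop, ∀ c : 𝕜, δ < ‖T (x k) - c • x k‖ := by
      rw [frequently_atTop]
      intro K
      obtain ⟨k, hk, hc⟩ := hcon K
      exact ⟨k, hk, hc⟩
    have h2 : ∀ᶠ k in atTop, ‖D.PX i (T (x k))‖ ≤ δ / 2 := by
      have h3 := (hP i).norm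
      rw [norm_zero] at h3
      exact (h3.eventually (gt_mem_nhds (show (0 : ℝ) < δ / 2 by positivity))).mono
        (fun k hk => hk.le)
    have h3 : ∀ᶠ k in atTop, i ≤ s k := by
      filter_upwards [eventually_ge_atTop i] with k hk
      exact hk.trans (hs k)
    exact (h1.and_eventually (h2.and h3)).mono (fun k hk => ⟨hk.1, hk.2.1, hk.2.2⟩))
  choose g hg1 hg2 hg3 using fun i => hHB (x (φ i)) (T (x (φ i))) δ hδ
    (fun c => ((hφP i).1 c).le)
  set C' : ℝ := max C 1 with hC'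
  have hR' : D.IsRIS C' (x ∘ φ) (s ∘ φ) (t ∘ φ) (jj ∘ φ) :=
    main_mono D (hSUB.1 C x s t jj φ hR hφ) (le_max_left _ _)
  refine hMB F w R T (4 * C') (δ / 24) ?_ (by positivity) ?_
  · have := le_max_right C 1
    linarith
  intro j hj p0 e he
  have hfx : ∀ k, main_f D (g k) k ((x ∘ φ) k) = 0 := by
    intro k
    have h1 : D.PX k (x (φ k)) = 0 := by
      have h2 := (hR.ran (φ k)).1
      have h3 : D.PX k (D.PX (s (φ k)) (x (φ k))) = D.PX k (x (φ k)) := by
        rw [D.PX_PX, min_eq_left (hφP k).2.2]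
      rw [← h3, h2, map_zero]
    rw [main_f_apply, Function.comp_apply, h1, map_zero, hg2, sub_zero, mul_zero]
  have hfT : ∀ k, δ / 6 ≤ RCLike.re (main_f D (g k) k (T ((x ∘ φ) k))) := by
    intro k
    rw [main_f_apply, RCLike.re_ofReal_mul, map_sub, Function.comp_apply]
    have h1 := hg3 k
    have h2 : RCLike.re (g k (D.PX k (T (x (φ k))))) ≤ δ / 2 := by
      refine (RCLike.re_le_norm _).trans ?_
      refine ((g k).le_opNorm _).trans ?_
      have h3 := (hφP k).2.1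
      have h4 := norm_nonneg (D.PX k (T (x (φ k))))
      have h5 := hg1 k
      nlinarith
    nlinarith
  obtain ⟨y, t', η, h1, h2, h3⟩ := hEX F w R T C' (x ∘ φ) (s ∘ φ) (t ∘ φ) (jj ∘ φ) hR'
    (fun p => (hP p).comp hφ.tendsto_atTop) (fun k => main_f D (g k) k) id (δ / 6)
    (by positivity) (fun k => main_f_norm D (g k) k (hg1 k))
    (fun k z => by
      show main_f D (g k) k (D.PX k z) = 0
      rw [main_f_apply, D.PX_PX, min_self, sub_self, mul_zero])
    tendsto_id hfx hfT j hj p0 e he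
  exact ⟨y, t', η, h1, h2, by linarith⟩

end

end CAL
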