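import Pool.Agent.H27.CAL.Stmts2

/-!
# Project CAL, module SCAL: one scalar for all rapidly increasing sequences
-/

open scoped BigOperators ENNReal Topology
open Filter

set_option linter.unusedSectionVars false

namespace CAL

section
variable {𝕜 : Type*} [RCLike 𝕜] {A : Type*} [PartialOrder A] {Y : Type*} [NormedAddCommGroup Y]
  [NormedSpace 𝕜 Y] {τ : TreeLev A}

theorem scal_alg1 {Z : Type*} [AddCommGroup Z] [Module 𝕜 Z] (v u : Z) (a c : 𝕜) :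
    v - a • u + (a - c) • u = v - c • u := by
  rw [sub_smul]; abel

theorem scal_alg2 {Z : Type*} [AddCommGroup Z] [Module 𝕜 Z] (v v' u u' : Z) (a c d : 𝕜) :
    v + v' - d • (u + u') - (v - a • u) - (v' - c • u') = (a - d) • u + (c - d) • u' := by
  rw [sub_smul, sub_smul, smul_add]; abel

theorem scal_alg3 {Z : Type*} [AddCommGroup Z] [Module 𝕜 Z] (v v' u u' : Z) (c d : 𝕜) :
    v + v' - d • (u + u') + (d - c) • (u + u') - (v' - c • u') = v - c • u := by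
  rw [sub_smul, smul_add c]; abel

/-- scalars along one rapidly increasing sequence -/
theorem scal_one (D : Dat 𝕜 Y τ) (hMAIN : MAINStmt D) {Ch : Finset ℕ → Prop} (F : FamSys Ch)
    (w : Wts) (R : Rich D F w) (hPT : D.PT) (T : D.X →L[𝕜] D.X) (x : ℕ → D.X) (hx : D.RIS x) :
    ∃ c : ℕ → 𝕜, Tendsto (fun k => T (x k) - c k • x k) atTop (𝓝 0) := by
  have hne : ∀ k, ∃ c : 𝕜, ∀ c' : 𝕜, ‖T (x k) - c • x k‖ ≤
      ‖T (x k) - c' • x k‖ + 1 / ((k : ℝ) + 1) := by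
    intro k
    have hpos : (0 : ℝ) < 1 / ((k : ℝ) + 1) := by positivity
    obtain ⟨c, hc⟩ := exists_lt_of_ciInf_lt (f := fun c : 𝕜 => ‖T (x k) - c • x k‖)
      (a := (⨅ c : 𝕜, ‖T (x k) - c • x k‖) + 1 / ((k : ℝ) + 1)) (by linarith)
    refine ⟨c, fun c' => hc.le.trans ?_⟩
    have h1 : (⨅ c : 𝕜, ‖T (x k) - c • x k‖) ≤ ‖T (x k) - c' • x k‖ :=
      ciInf_le ⟨0, by rintro _ ⟨d, rfl⟩; exact norm_nonneg _⟩ c'
    linarith
  choose c hc using hne
  refine ⟨c, ?_⟩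
  rw [tendsto_zero_iff_norm_tendsto_zero, Metric.tendsto_atTop]
  intro ε hε
  obtain ⟨K, hK⟩ := hMAIN F w R T x hx (hPT T x hx) (ε / 2) (by positivity)
  obtain ⟨K', hK'⟩ := exists_nat_one_div_lt (show (0 : ℝ) < ε / 2 by positivity)
  refine ⟨max K K', fun k hk => ?_⟩
  obtain ⟨c', hc'⟩ := hK k ((le_max_left _ _).trans hk)
  have h1 : 1 / ((k : ℝ) + 1) ≤ 1 / ((K' : ℝ) + 1) := by
    apply one_div_le_one_div_of_le (by positivity)
    have : (K' : ℝ) ≤ k := by exact_mod_cast (le_max_right _ _).trans hk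
    linarith
  have h2 := hc k c'
  rw [dist_zero_right, norm_norm]
  linarith

/-- the norm of a RIS is bounded -/
theorem scal_bdd (D : Dat 𝕜 Y τ) {x : ℕ → D.X} (hx : D.RIS x) : ∃ C : ℝ, 0 < C ∧ ∀ k, ‖x k‖ ≤ C := by
  obtain ⟨C, s, t, j, h⟩ := hx
  exact ⟨max C 1, lt_of_lt_of_le one_pos (le_max_right _ _), fun k => (h.nm k).trans
    (le_max_left _ _)⟩

theorem scal_sub (D : Dat 𝕜 Y τ) (hSUB : SUBStmt D) {x : ℕ → D.X} (hx : D.RIS x) {φ : ℕ → ℕ}
    (hφ : StrictMono φ) : D.RIS (x ∘ φ) := by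
  obtain ⟨C, s, t, j, h⟩ := hx
  exact ⟨C, _, _, _, hSUB.1 C x s t j φ h hφ⟩

/-- product of a scalar null sequence and a bounded sequence -/
theorem scal_null (D : Dat 𝕜 Y τ) {x : ℕ → D.X} {C : ℝ} (hx : ∀ k, ‖x k‖ ≤ C) {c : ℕ → 𝕜}
    (hc : Tendsto c atTop (𝓝 0)) : Tendsto (fun k => c k • x k) atTop (𝓝 0) := by
  rw [tendsto_zero_iff_norm_tendsto_zero] at hc ⊢
  refine squeeze_zero (fun _ => norm_nonneg _) (g := fun k => ‖c k‖ * C) (fun k => ?_) ?_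
  · rw [norm_smul]
    exact mul_le_mul_of_nonneg_left (hx k) (norm_nonneg _)
  · simpa using hc.mul_const C

theorem cal_scal (D : Dat 𝕜 Y τ) (hMAIN : MAINStmt D) (hREX : REXStmt D) (hSUB : SUBStmt D)
    (hMIX : MIXStmt D) : SCALStmt D := by
  intro Ch F w R hPT T
  have hone := scal_one D hMAIN F w R hPT T
  obtain ⟨C0, u0, su, tu, ju, hu0, hu1⟩ := hREX F w R
  have hu0R : D.RIS u0 := ⟨C0, su, tu, ju, hu0⟩
  obtain ⟨cu, hcu⟩ := hone u0 hu0R
  -- cu is bounded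
  have hbdd : ∃ M : ℝ, ∀ k, ‖cu k‖ ≤ M := by
    obtain ⟨M1, hM1⟩ := hcu.norm.bddAbove_range
    refine ⟨‖T‖ * C0 + M1, fun k => ?_⟩
    have h1 : ‖T (u0 k) - cu k • u0 k‖ ≤ M1 := hM1 ⟨k, rfl⟩
    have h2 : ‖cu k • u0 k‖ ≤ ‖T (u0 k)‖ + ‖T (u0 k) - cu k • u0 k‖ := by
      have h := norm_sub_le (T (u0 k)) (T (u0 k) - cu k • u0 k)
      rwa [sub_sub_cancel] at h
    have h3 : ‖T (u0 k)‖ ≤ ‖T‖ * C0 :=
      (T.le_opNorm _).trans (mul_le_mul_of_nonneg_left (hu0.nm k) (norm_nonneg _))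
    rw [norm_smul] at h2
    have h4 : ‖cu k‖ ≤ ‖cu k‖ * ‖u0 k‖ := le_mul_of_one_le_right (norm_nonneg _) (hu1 k)
    linarith
  obtain ⟨M, hM⟩ := hbdd
  obtain ⟨c, -, φ, hφ, hcφ⟩ := tendsto_subseq_of_bounded
    (Metric.isBounded_closedBall (x := (0 : 𝕜)) (r := M))
    (fun k => mem_closedBall_zero_iff.2 (hM k))
  -- the reference sequence
  have huR : D.RIS (u0 ∘ φ) := scal_sub D hSUB hu0R hφ
  obtain ⟨Cu, hCu0, hCu⟩ := scal_bdd D hu0R
  have hTu : Tendsto (fun k => T ((u0 ∘ φ) k) - c • (u0 ∘ φ) k) atTop (𝓝 0) := by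
    have h1 : Tendsto (fun k => T (u0 (φ k)) - cu (φ k) • u0 (φ k)) atTop (𝓝 0) :=
      hcu.comp hφ.tendsto_atTop
    have h2 : Tendsto (fun k => (cu (φ k) - c) • u0 (φ k)) atTop (𝓝 0) :=
      scal_null D (fun k => hCu (φ k)) (by
        have := hcφ.sub_const c
        simpa using this)
    have h3 := h1.add h2
    rw [add_zero] at h3
    exact h3.congr (fun k => scal_alg1 (T (u0 (φ k))) (u0 (φ k)) (cu (φ k)) c)
  refine ⟨c, fun x hx => ?_⟩
  by_contra hcon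
  -- a subsequence which stays away from 0
  have hfreq : ∃ δ > (0 : ℝ), ∃ᶠ k in atTop, δ ≤ ‖T (x k) - c • x k‖ := by
    by_contra hno
    push Not at hno
    apply hcon
    rw [tendsto_zero_iff_norm_tendsto_zero, Metric.tendsto_atTop]
    intro ε hε
    obtain ⟨N, hN⟩ := eventually_atTop.1 (hno ε hε)
    refine ⟨N, fun k hk => ?_⟩
    rw [dist_zero_right, norm_norm]
    exact hN k hk
  obtain ⟨δ, hδ, hfr⟩ := hfreq
  obtain ⟨ψ, hψ, hψδ⟩ := extraction_of_frequently_atTop hfr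
  have hxR : D.RIS (x ∘ ψ) := scal_sub D hSUB hx hψ
  obtain ⟨Cx, hCx0, hCx⟩ := scal_bdd D hxR
  obtain ⟨a, b, q, ha, hb, hw, hq⟩ := hMIX (x ∘ ψ) (u0 ∘ φ) hxR huR
  obtain ⟨cx, hcx⟩ := hone (x ∘ ψ) hxR
  obtain ⟨d, hd⟩ := hone _ hw
  have hcxa : Tendsto (fun k => T ((x ∘ ψ) (a k)) - cx (a k) • (x ∘ ψ) (a k)) atTop (𝓝 0) :=
    hcx.comp ha.tendsto_atTop
  have hTub : Tendsto (fun k => T ((u0 ∘ φ) (b k)) - c • (u0 ∘ φ) (b k)) atTop (𝓝 0) :=
    hTu.comp hb.tendsto_atTop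
  set X1 : ℕ → D.X := fun k => (x ∘ ψ) (a k) with hX1
  set U1 : ℕ → D.X := fun k => (u0 ∘ φ) (b k) with hU1
  have hX1b : ∀ k, ‖X1 k‖ ≤ Cx := fun k => hCx (a k)
  have hU1b : ∀ k, ‖U1 k‖ ≤ Cu := fun k => hCu (φ (b k))
  have hU1l : ∀ k, 1 ≤ ‖U1 k‖ := fun k => hu1 (φ (b k))
  -- the difference
  have hdiff : Tendsto (fun k => (cx (a k) - d k) • X1 k + (c - d k) • U1 k) atTop (𝓝 0) := by
    have h1 := (hd.sub hcxa).sub hTub
    rw [sub_zero, sub_zero] at h1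
    refine h1.congr (fun k => ?_)
    show T (X1 k + U1 k) - d k • (X1 k + U1 k) - (T (X1 k) - cx (a k) • X1 k) -
      (T (U1 k) - c • U1 k) = _
    rw [map_add]
    exact scal_alg2 _ _ _ _ _ _ _
  have hP1 : Tendsto (fun k => (cx (a k) - d k) • X1 k) atTop (𝓝 0) := by
    rw [tendsto_zero_iff_norm_tendsto_zero] at hdiff ⊢
    refine squeeze_zero (fun _ => norm_nonneg _)
      (g := fun k => 2 * ‖(cx (a k) - d k) • X1 k + (c - d k) • U1 k‖) (fun k => ?_) ?_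
    · have h1 : D.PX (q k) ((cx (a k) - d k) • X1 k + (c - d k) • U1 k) =
          (cx (a k) - d k) • X1 k := by
        rw [map_add, map_smul, map_smul, (hq k).1, (hq k).2, smul_zero, add_zero]
      have h2 := D.norm_PX_le (q k) ((cx (a k) - d k) • X1 k + (c - d k) • U1 k)
      rw [h1] at h2
      exact h2
    · simpa using hdiff.const_mul 2
  have hP2 : Tendsto (fun k => (c - d k) • U1 k) atTop (𝓝 0) := by
    have h := hdiff.sub hP1
    rw [sub_zero] at h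
    refine h.congr (fun k => ?_)
    abel
  have hdc : Tendsto (fun k => d k - c) atTop (𝓝 0) := by
    rw [tendsto_zero_iff_norm_tendsto_zero] at hP2 ⊢
    refine squeeze_zero (fun _ => norm_nonneg _) (fun k => ?_) hP2
    rw [norm_smul, norm_sub_rev]
    exact le_mul_of_one_le_right (norm_nonneg _) (hU1l k)
  have hfin : Tendsto (fun k => T (X1 k) - c • X1 k) atTop (𝓝 0) := by
    have h1 : Tendsto (fun k => (d k - c) • (X1 k + U1 k)) atTop (𝓝 0) :=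
      scal_null D (C := Cx + Cu) (fun k => (norm_add_le _ _).trans
        (add_le_add (hX1b k) (hU1b k))) hdc
    have h2 := (hd.add h1).sub hTub
    rw [add_zero, sub_zero] at h2
    refine h2.congr (fun k => ?_)
    show T (X1 k + U1 k) - d k • (X1 k + U1 k) + (d k - c) • (X1 k + U1 k) -
      (T (U1 k) - c • U1 k) = _
    rw [map_add]
    exact scal_alg3 _ _ _ _ _ _
  rw [tendsto_zero_iff_norm_tendsto_zero, Metric.tendsto_atTop] at hfin
  obtain ⟨N, hN⟩ := hfin δ hδ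
  have h1 := hN N le_rfl
  rw [dist_zero_right, norm_norm] at h1
  exact absurd (hψδ (a N)) (not_le.2 h1)

end

end CAL
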